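import Pool.Agent.Y505.KP.Spc

/-!
# Lattice and general simultaneous packing and covering constants differ in every dimension `≥ 8`

For every `n ≥ 8` and all small `ε > 0` the norm `max_{i ≠ j} (|x_i| + ε |x_j|)` of `ℝⁿ` satisfies
`γ ≤ 1 + ε / (2 + ε)`, while `γ* = 1 + ε - o(ε)`.  In particular norms arbitrarily close to the
maximum norm (for which `γ = γ* = 1`) have `γ < γ*`.
-/

set_option autoImplicit false

open scoped NNReal

namespace Pool.Agent.Results.MP_78373f_an.EveryDimension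

open Pool.Agent.Y505.KP

/-- A subset `P` of a normed space is `r`-separated: distinct points of `P` have distance at
least `r`. -/
def Separated {X : Type} [NormedAddCommGroup X] (r : ℝ) (P : Set X) : Prop :=
  ∀ x ∈ P, ∀ y ∈ P, x ≠ y → r ≤ ‖x - y‖

/-- A subset `P` of a normed space is `r`-dense: every point of the space has distance at most
`r` from some point of `P`. -/
def RDense {X : Type} [NormedAddCommGroup X] (r : ℝ) (P : Set X) : Prop :=
  ∀ x : X, ∃ p ∈ P, ‖x - p‖ ≤ r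

/-- The radii `r > 0` for which some subset of the space is `r`-dense and `2`-separated. -/
def Radii (X : Type) [NormedAddCommGroup X] : Set ℝ :=
  {r : ℝ | 0 < r ∧ ∃ P : Set X, RDense r P ∧ Separated 2 P}

/-- The radii `r > 0` for which some additive subgroup of the space is `r`-dense and
`2`-separated. -/
def LatticeRadii (X : Type) [NormedAddCommGroup X] : Set ℝ :=
  {r : ℝ | 0 < r ∧ ∃ P : AddSubgroup X, RDense r (P : Set X) ∧ Separated 2 (P : Set X)}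

/-- The simultaneous packing and covering constant. -/
noncomputable def gamma (X : Type) [NormedAddCommGroup X] : ℝ := sInf (Radii X)

/-- The lattice simultaneous packing and covering constant. -/
noncomputable def gammaLattice (X : Type) [NormedAddCommGroup X] : ℝ := sInf (LatticeRadii X)

/-- `X` is `ℝⁿ` (by means of the linear coordinates `e`) with the norm
`max_{i ≠ j} (|x_i| + ε |x_j|)`. -/
def IsPerturbedCube (n : ℕ) (ε : ℝ) (X : Type) [NormedAddCommGroup X] [NormedSpace ℝ X]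
    (e : X ≃ₗ[ℝ] (Fin n → ℝ)) : Prop :=
  ∀ x : X, IsGreatest {s : ℝ | ∃ i j : Fin n, i ≠ j ∧ s = |e x i| + ε * |e x j|} ‖x‖

lemma perturbed (m : ℕ) (e : ℝ≥0) :
    IsPerturbedCube (m + 2) e (Y m e) (LinearEquiv.refl ℝ (Y m e)) := by
  intro x
  constructor
  · obtain ⟨i, j, hij, h⟩ := exists_norm_le x
    exact ⟨i, j, hij, le_antisymm h (le_norm x i j hij)⟩
  · rintro s ⟨i, j, hij, rfl⟩
    exact le_norm x i j hij

lemma bounds (n : ℕ) (hn : 8 ≤ n) (c : ℝ) (hc : c < 1) :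
    ∃ δ : ℝ, 0 < δ ∧ ∀ ε : ℝ, 0 < ε → ε ≤ δ →
      ∃ (X : Type) (_ : NormedAddCommGroup X) (_ : NormedSpace ℝ X) (e : X ≃ₗ[ℝ] (Fin n → ℝ)),
        IsPerturbedCube n ε X e ∧ (Radii X).Nonempty ∧ (LatticeRadii X).Nonempty ∧
        gamma X ≤ 1 + ε / (2 + ε) ∧ 1 + c * ε ≤ gammaLattice X ∧ gammaLattice X ≤ 1 + ε := by
  obtain ⟨m, rfl⟩ : ∃ m, n = m + 2 := ⟨n - 2, by omega⟩
  obtain ⟨δ, hδ, h⟩ := lower m (max c 0) (le_max_right _ _) (max_lt hc one_pos)
  refine ⟨min δ 1, lt_min hδ one_pos, ?_⟩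
  intro ε hε hεδ
  have hε1 : ε ≤ 1 := hεδ.trans (min_le_right _ _)
  set e : ℝ≥0 := ⟨ε, hε.le⟩ with he
  have hee : (e : ℝ) = ε := rfl
  obtain ⟨P, hP1, hP2⟩ := upper (good (m + 2) hn) e (by rw [hee]; linarith)
  obtain ⟨L, hL1, hL2⟩ := lattice_exists m e
  have hmem1 : (2 + 2 * ε) / (2 + ε) ∈ Radii (Y m e) := ⟨by positivity, P, hP2, hP1⟩
  have hmem2 : 1 + ε ∈ LatticeRadii (Y m e) := ⟨by positivity, L, hL2, hL1⟩
  refine ⟨Y m e, inferInstance, inferInstance, LinearEquiv.refl ℝ (Y m e), perturbed m e,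
    ⟨_, hmem1⟩, ⟨_, hmem2⟩, ?_, ?_, ?_⟩
  · have h1 : gamma (Y m e) ≤ (2 + 2 * ε) / (2 + ε) :=
      csInf_le ⟨0, fun r hr => hr.1.le⟩ hmem1
    have h2 : (2 + 2 * ε) / (2 + ε) = 1 + ε / (2 + ε) := by field_simp; ring
    rwa [h2] at h1
  · refine le_csInf ⟨_, hmem2⟩ ?_
    rintro r ⟨-, Q, hQ1, hQ2⟩
    have h1 := h e (by exact_mod_cast hε) (hεδ.trans (min_le_left _ _)) Q r hQ2 hQ1
    have h2 : c * ε ≤ max c 0 * ε := mul_le_mul_of_nonneg_right (le_max_left _ _) hε.le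
    rw [hee] at h1
    linarith
  · exact csInf_le ⟨0, fun r hr => hr.1.le⟩ hmem2

/-- (1) For every `n ≥ 8` and every `δ > 0` there is an `n`-dimensional real normed space `X` with
`gamma X < gammaLattice X` whose norm is, in suitable coordinates, between the maximum norm and
`1 + δ` times the maximum norm.  (2) More precisely, for every `n ≥ 8` and every `c < 1`, for all
sufficiently small `ε > 0` the norm `max_{i ≠ j} (|x_i| + ε |x_j|)` of `ℝⁿ` satisfies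
`gamma ≤ 1 + ε / (2 + ε)` and `1 + c ε ≤ gammaLattice ≤ 1 + ε`. -/
theorem result :
    (∀ n : ℕ, 8 ≤ n → ∀ δ : ℝ, 0 < δ →
      ∃ (X : Type) (_ : NormedAddCommGroup X) (_ : NormedSpace ℝ X) (e : X ≃ₗ[ℝ] (Fin n → ℝ)),
        Module.finrank ℝ X = n ∧ (∀ x : X, ‖e x‖ ≤ ‖x‖ ∧ ‖x‖ ≤ (1 + δ) * ‖e x‖) ∧
        (Radii X).Nonempty ∧ (LatticeRadii X).Nonempty ∧ gamma X < gammaLattice X) ∧
    (∀ n : ℕ, 8 ≤ n → ∀ c : ℝ, c < 1 → ∃ δ : ℝ, 0 < δ ∧ ∀ ε : ℝ, 0 < ε → ε ≤ δ →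
      ∃ (X : Type) (_ : NormedAddCommGroup X) (_ : NormedSpace ℝ X) (e : X ≃ₗ[ℝ] (Fin n → ℝ)),
        IsPerturbedCube n ε X e ∧ (Radii X).Nonempty ∧ (LatticeRadii X).Nonempty ∧
        gamma X ≤ 1 + ε / (2 + ε) ∧ 1 + c * ε ≤ gammaLattice X ∧ gammaLattice X ≤ 1 + ε) := by
  refine ⟨?_, bounds⟩
  intro n hn δ hδ
  obtain ⟨δ', hδ', h⟩ := bounds n hn (1 / 2) (by norm_num)
  have hε : 0 < min δ δ' := lt_min hδ hδ'
  obtain ⟨X, i1, i2, e, h1, h2, h3, h4, h5, h6⟩ := h (min δ δ') hε (min_le_right _ _)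
  refine ⟨X, i1, i2, e, ?_, ?_, h2, h3, ?_⟩
  · rw [e.finrank_eq, Module.finrank_fin_fun]
  · intro x
    obtain ⟨⟨i, j, hij, hx⟩, hub⟩ := h1 x
    constructor
    · rw [pi_norm_le_iff_of_nonneg (norm_nonneg x)]
      intro k
      obtain ⟨l, hl⟩ : ∃ l : Fin n, k ≠ l := by
        have : Nontrivial (Fin n) := Fin.nontrivial_iff_two_le.2 (by omega)
        obtain ⟨l, hl⟩ := exists_ne k
        exact ⟨l, hl.symm⟩
      have h7 : |e x k| + min δ δ' * |e x l| ≤ ‖x‖ := hub ⟨k, l, hl, rfl⟩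
      have h8 : 0 ≤ min δ δ' * |e x l| := mul_nonneg hε.le (abs_nonneg _)
      rw [Real.norm_eq_abs]
      linarith
    · rw [hx]
      have h7 : |e x i| ≤ ‖e x‖ := norm_le_pi_norm (e x) i
      have h8 : |e x j| ≤ ‖e x‖ := norm_le_pi_norm (e x) j
      have h9 : min δ δ' * |e x j| ≤ δ * ‖e x‖ :=
        mul_le_mul (min_le_left _ _) h8 (abs_nonneg _) hδ.le
      linarith
  · have h7 : min δ δ' / (2 + min δ δ') < 1 / 2 * min δ δ' := by
      rw [div_lt_iff₀ (by positivity)]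
      nlinarith
    linarith

end Pool.Agent.Results.MP_78373f_an.EveryDimension
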